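import Pool.Agent.K1H35.JA.Stm

/-! Piece LOWA of the project JA: jumping automata with large state complexity. -/

set_option autoImplicit false

namespace Pool.Agent.K1H10.JA

open Finset Pool.Agent.K1H35.JA

/-- names for the states -/
lemma exists_code (n : ℕ) (V : Finset ℕ) (h : ∑ p ∈ V, p + 1 ≤ n) :
    ∃ (s0 : Fin n) (c : ℕ → ℕ → Fin n), (∀ p ∈ V, ∀ j < p, c p j ≠ s0) ∧
      ∀ p ∈ V, ∀ j < p, ∀ p' ∈ V, ∀ j' < p', c p j = c p' j' → p = p' ∧ j = j' := by
  set T : Finset (Σ _ : ℕ, ℕ) := V.sigma (fun p => Finset.range p) with hT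
  have hc : Fintype.card (Option T) ≤ Fintype.card (Fin n) := by
    rw [Fintype.card_option, Fintype.card_coe, Fintype.card_fin, hT, Finset.card_sigma]
    simpa using h
  obtain ⟨ι⟩ := Function.Embedding.nonempty_of_card_le hc
  have hm : ∀ p ∈ V, ∀ j < p, (⟨p, j⟩ : Σ _ : ℕ, ℕ) ∈ T := by
    intro p hp j hj
    rw [hT, Finset.mem_sigma]
    exact ⟨hp, Finset.mem_range.2 hj⟩
  classical
  refine ⟨ι none, fun p j => if h : (⟨p, j⟩ : Σ _ : ℕ, ℕ) ∈ T then ι (some ⟨_, h⟩) else ι none,
    ?_, ?_⟩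
  · intro p hp j hj
    simp only
    rw [dif_pos (hm p hp j hj)]
    intro he
    exact absurd (ι.injective he) (by simp)
  · intro p hp j hj p' hp' j' hj' he
    simp only at he
    rw [dif_pos (hm p hp j hj), dif_pos (hm p' hp' j' hj')] at he
    have h1 := ι.injective he
    rw [Option.some_inj, Subtype.mk.injEq] at h1
    have h2 := congrArg Sigma.fst h1
    simp only at h2
    subst h2
    refine ⟨rfl, ?_⟩
    have h3 := congrArg (fun x : Σ _ : ℕ, ℕ => x.2) h1
    exact h3

/-- the automaton -/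
def AA {n k : ℕ} (V : Finset ℕ) (s0 : Fin n) (c : ℕ → ℕ → Fin n) (i0 : Fin k) : Aut n k where
  step q a r := (q = s0 ∧ a = none ∧ ∃ p ∈ V, r = c p 0) ∨
    (∃ p ∈ V, ∃ j < p, ∃ i : Fin k, q = c p j ∧ a = some i ∧
      r = c p (if i = i0 then (j + 1) % p else j))
  start := s0
  acc q := ∃ p ∈ V, ∃ j < p, j ≠ 0 ∧ q = c p j

section

variable {n k : ℕ} (V : Finset ℕ) (s0 : Fin n) (c : ℕ → ℕ → Fin n) (i0 : Fin k)
  (h1 : ∀ p ∈ V, ∀ j < p, c p j ≠ s0)
  (h2 : ∀ p ∈ V, ∀ j < p, ∀ p' ∈ V, ∀ j' < p', c p j = c p' j' → p = p' ∧ j = j')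

include h1 h2 in
lemma reach_c (q r : Fin n) (x : Fin k → ℕ) (h : Reach (AA V s0 c i0) q x r) :
    ∀ p ∈ V, ∀ j < p, q = c p j → r = c p ((j + x i0) % p) := by
  induction h with
  | nil q =>
    intro p hp j hj hq
    rw [hq, Pi.zero_apply, add_zero, Nat.mod_eq_of_lt hj]
  | @cons q r s a x hs hr ih =>
    intro p hp j hj hq
    rcases hs with ⟨e1, -, -⟩ | ⟨p', hp', j', hj', i, e1, e2, e3⟩
    · exact absurd (hq.symm.trans e1) (h1 p hp j hj)
    · obtain ⟨rfl, rfl⟩ := h2 p hp j hj p' hp' j' hj' (hq.symm.trans e1)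
      subst e2
      by_cases hi : i = i0
      · subst hi
        rw [if_pos rfl] at e3
        have h3 := ih p hp _ (Nat.mod_lt _ (by omega)) e3
        rw [h3]
        congr 1
        simp only [Pi.add_apply, vec, e, Pi.single_eq_same]
        rw [Nat.mod_add_mod]
        congr 1
        ring
      · rw [if_neg hi] at e3
        have h3 := ih p hp _ hj e3
        rw [h3]
        congr 1
        simp only [Pi.add_apply, vec, e]
        rw [Pi.single_eq_of_ne (Ne.symm hi), zero_add]

lemma reach_w (p : ℕ) (hp : p ∈ V) (w : List (Fin k)) : ∀ j < p,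
    Reach (AA V s0 c i0) (c p j) (pk w) (c p ((j + w.count i0) % p)) := by
  induction w with
  | nil =>
    intro j hj
    have e1 : pk ([] : List (Fin k)) = 0 := by
      funext i
      simp [pk]
    rw [e1, List.count_nil, add_zero, Nat.mod_eq_of_lt hj]
    exact Reach.nil _
  | cons i w ih =>
    intro j hj
    have e1 : pk (i :: w) = vec (some i) + pk w := by
      funext l
      simp only [pk, vec, e, Pi.add_apply, List.count_cons, Pi.single_apply, beq_iff_eq]
      by_cases h : i = l
      · subst h; simp; ring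
      · rw [if_neg h, if_neg (Ne.symm h)]; ring
    rw [e1]
    have hs : (AA V s0 c i0).step (c p j) (some i) (c p (if i = i0 then (j + 1) % p else j)) :=
      Or.inr ⟨p, hp, j, hj, i, rfl, rfl, rfl⟩
    refine Reach.cons hs ?_
    have h3 : (if i = i0 then (j + 1) % p else j) < p := by
      split_ifs
      · exact Nat.mod_lt _ (by omega)
      · exact hj
    have h4 := ih _ h3
    have h5 : ((if i = i0 then (j + 1) % p else j) + w.count i0) % p =
        (j + (i :: w).count i0) % p := by
      rw [List.count_cons]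
      by_cases hi : i = i0
      · simp only [hi, if_true, beq_self_eq_true]
        rw [Nat.mod_add_mod]
        congr 1
        ring
      · simp [hi]
    rwa [h5] at h4

include h1 h2 in
lemma mem_SA (h0 : ∀ p ∈ V, 0 < p) (w : List (Fin k)) :
    pk w ∈ SA (AA V s0 c i0) ↔ ∃ p ∈ V, ¬ p ∣ w.count i0 := by
  constructor
  · rintro ⟨q, ⟨p, hp, j, hj, hj0, hq⟩, hr⟩
    have hst : (AA V s0 c i0).start = s0 := rfl
    rw [hst] at hr
    generalize hx : pk w = x at hr
    cases hr with
    | nil => exact absurd hq.symm (h1 p hp j hj)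
    | @cons _ r _ a x' hs hr =>
      rcases hs with ⟨-, e2, p', hp', e3⟩ | ⟨p', hp', j', hj', i, e1, e2, e3⟩
      · subst e2
        have h5 : 0 < p' := h0 p' hp'
        have h4 := reach_c V s0 c i0 h1 h2 _ _ _ hr p' hp' 0 h5 e3
        rw [zero_add] at h4
        obtain ⟨rfl, rfl⟩ := h2 p hp j hj p' hp' _ (Nat.mod_lt _ h5) (hq.symm.trans h4)
        refine ⟨p, hp, fun hd => hj0 ?_⟩
        have h6 : x' i0 = w.count i0 := by
          have := congrFun hx i0
          simpa [pk, vec] using this.symm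
        rw [h6]
        exact Nat.mod_eq_zero_of_dvd hd
      · exact absurd e1.symm (h1 p' hp' j' hj')
  · rintro ⟨p, hp, hd⟩
    have h5 : 0 < p := h0 p hp
    refine ⟨c p (w.count i0 % p), ⟨p, hp, _, Nat.mod_lt _ h5, fun h => hd (Nat.dvd_of_mod_eq_zero h),
      rfl⟩, ?_⟩
    have h6 := reach_w V s0 c i0 p hp w 0 h5
    rw [zero_add] at h6
    have hs : (AA V s0 c i0).step s0 none (c p 0) := Or.inl ⟨rfl, rfl, p, hp, rfl⟩
    have h7 := Reach.cons hs h6
    have h8 : vec (none : Option (Fin k)) + pk w = pk w := by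
      simp [vec]
    rw [h8] at h7
    exact h7

end

/-! ### the language -/

/-- a DFA which counts the letter `i0` -/
def MM {k : ℕ} (Q : ℕ) (i0 : Fin k) : DFA (Fin k) (ZMod Q) where
  step s a := if a = i0 then s + 1 else s
  start := 0
  accept := {s | s ≠ 0}

lemma evalFrom_MM {k : ℕ} (Q : ℕ) (i0 : Fin k) (w : List (Fin k)) : ∀ s : ZMod Q,
    (MM Q i0).evalFrom s w = s + (w.count i0 : ℕ) := by
  induction w with
  | nil => intro s; simp
  | cons a w ih =>
    intro s
    rw [DFA.evalFrom_cons, ih, List.count_cons]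
    by_cases h : a = i0
    · subst h
      simp only [MM, if_true, beq_self_eq_true]
      push_cast
      ring
    · simp [MM, h]

lemma mem_MM {k : ℕ} (Q : ℕ) (i0 : Fin k) (w : List (Fin k)) :
    w ∈ (MM Q i0).accepts ↔ ¬ Q ∣ w.count i0 := by
  rw [DFA.mem_accepts]
  show (MM Q i0).evalFrom 0 w ≠ 0 ↔ _
  rw [evalFrom_MM, zero_add, Ne, ZMod.natCast_eq_zero_iff]

lemma card_le {k m Q : ℕ} (i0 : Fin k) (M : DFA (Fin k) (Fin m))
    (hM : ∀ w, w ∈ M.accepts ↔ ¬ Q ∣ w.count i0) : Q ≤ m := by
  have hinj : Function.Injective (fun j : Fin Q => M.eval (List.replicate j.1 i0)) := by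
    have key : ∀ j j' : ℕ, j < j' → j' < Q →
        M.eval (List.replicate j i0) ≠ M.eval (List.replicate j' i0) := by
      intro j j' hjj hj' he
      have e1 : M.eval (List.replicate j i0 ++ List.replicate (Q - j) i0) =
          M.eval (List.replicate j' i0 ++ List.replicate (Q - j) i0) := by
        unfold DFA.eval at he ⊢
        rw [DFA.evalFrom_of_append, DFA.evalFrom_of_append, he]
      have e2 := hM (List.replicate j i0 ++ List.replicate (Q - j) i0)
      have e3 := hM (List.replicate j' i0 ++ List.replicate (Q - j) i0)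
      rw [DFA.mem_accepts] at e2 e3
      rw [e1, e3] at e2
      rw [List.count_append, List.count_append, List.count_replicate_self,
        List.count_replicate_self, List.count_replicate_self,
        show j + (Q - j) = Q by omega, show j' + (Q - j) = Q + (j' - j) by omega] at e2
      have e4 : Q ∣ Q + (j' - j) := by
        by_contra h
        exact (e2.1 h) dvd_rfl
      have e5 : Q ∣ j' - j := (Nat.dvd_add_right (dvd_refl Q)).1 e4
      have e6 := Nat.le_of_dvd (by omega) e5
      omega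
    intro a b hab
    rcases lt_trichotomy a.1 b.1 with h | h | h
    · exact absurd hab (key _ _ h b.2)
    · exact Fin.ext h
    · exact absurd hab.symm (key _ _ h a.2)
  have := Fintype.card_le_of_injective _ hinj
  simpa using this

theorem t_LOWA (hJL : S_JL) : S_LOWA := by
  intro n k V hk hV hne hn
  obtain ⟨s0, c, h1, h2⟩ := exists_code n V hn
  have i0 : Fin k := ⟨0, hk⟩
  have hpos : ∀ p ∈ V, 0 < p := fun p hp => (hV p hp).pos
  refine ⟨AA V s0 c i0, ?_⟩
  set Q := ∏ p ∈ V, p with hQ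
  have hQ0 : Q ≠ 0 := by
    rw [hQ]
    exact Finset.prod_ne_zero_iff.2 fun p hp => (hpos p hp).ne'
  have : NeZero Q := ⟨hQ0⟩
  have hmem : ∀ w, w ∈ JL (AA V s0 c i0) ↔ ¬ Q ∣ w.count i0 := by
    intro w
    rw [hJL, mem_SA V s0 c i0 h1 h2 hpos w]
    constructor
    · rintro ⟨p, hp, hd⟩ h
      exact hd ((Finset.dvd_prod_of_mem (fun p => p) hp).trans h)
    · intro h
      by_contra hcon
      push Not at hcon
      exact h (Finset.prod_primes_dvd _ (fun p hp => (hV p hp).prime) hcon)
  have hacc : (MM Q i0).accepts = JL (AA V s0 c i0) := by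
    ext w
    rw [mem_MM, hmem]
  have hreg : (JL (AA V s0 c i0)).IsRegular := ⟨ZMod Q, inferInstance, MM Q i0, hacc⟩
  refine ⟨hreg, ?_⟩
  unfold sc
  refine le_csInf ?_ ?_
  · refine ⟨Fintype.card (ZMod Q), DFA.reindex (Fintype.equivFin (ZMod Q)) (MM Q i0), ?_⟩
    rw [DFA.accepts_reindex, hacc]
  · rintro m ⟨M, hM⟩
    refine card_le i0 M fun w => ?_
    rw [hM, hmem]

end Pool.Agent.K1H10.JA
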